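import Pool.Agent.MWK.Stmts

namespace Pool.Agent.MWK.H15

open Pool.Agent.Helper14_MV Pool.Agent.Helper2_MV Pool.Agent.MWK

theorem inv (h1 : DagStmt) : InvStmt := by
  intro m u v
  refine ⟨?_, ?_, ?_⟩
  · intro h y x i
    exact h1 m u v h m (Nat.le_succ m) y
  · intro h y x i
    have hd := h1 m u v (h.weaken (fun _ _ _ hg => Or.inl hg))
    unfold FB
    rw [hd m (Nat.le_succ m) y, hd (m + 1) le_rfl y, hd (m + 1) le_rfl x]
  · intro e he h y x i
    have hd := h1 m u v (h.weaken (fun _ _ _ hg => Or.inl hg))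
    unfold FD
    rw [hd m (Nat.le_succ m) y, hd (m + 1) le_rfl y, hd e he x]

end Pool.Agent.MWK.H15
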